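import Mathlib

/-!
# PV (MP_c0bc55_al): deterministic partial maps and generated equivalences

`fwd step n q`: `n` steps from `q`.  `Meets step p q`: the forward runs of `p` and `q` meet.
`eqv_iff_meets`: the equivalence generated by two kinds of rules, where the first kind has the
classes `abs` and the second kind is the graph of a deterministic partial map on the classes.
-/

namespace PVZ

open Relation

variable {X Q : Type*}

/-- `n` steps -/
def fwd (step : Q → Option Q) : ℕ → Q → Option Q
  | 0, q => some q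
  | n + 1, q => (step q).bind (fwd step n)

@[simp] theorem fwd_zero (step : Q → Option Q) (q : Q) : fwd step 0 q = some q := rfl

theorem fwd_succ (step : Q → Option Q) (n : ℕ) (q : Q) :
    fwd step (n + 1) q = (step q).bind (fwd step n) := rfl

theorem fwd_add (step : Q → Option Q) (m n : ℕ) (q : Q) :
    fwd step (m + n) q = (fwd step m q).bind (fwd step n) := by
  induction m generalizing q with
  | zero => simp
  | succ m ih =>
    rw [Nat.succ_add, fwd_succ, fwd_succ, Option.bind_assoc]
    congr 1
    funext r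
    exact ih r

theorem fwd_succ' (step : Q → Option Q) (n : ℕ) (q : Q) :
    fwd step (n + 1) q = (fwd step n q).bind step := by
  rw [fwd_add]
  congr 1
  funext r
  rw [fwd_succ]
  cases step r <;> rfl

theorem fwd_none_mono {step : Q → Option Q} {m n : ℕ} (h : m ≤ n) {q : Q}
    (hq : fwd step m q = none) : fwd step n q = none := by
  obtain ⟨k, rfl⟩ := Nat.exists_eq_add_of_le h
  rw [fwd_add, hq]
  rfl

/-- the forward runs meet -/
def Meets (step : Q → Option Q) (p q : Q) : Prop :=
  ∃ m n r, fwd step m p = some r ∧ fwd step n q = some r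

theorem Meets.refl (step : Q → Option Q) (p : Q) : Meets step p p := ⟨0, 0, p, rfl, rfl⟩

theorem Meets.symm {step : Q → Option Q} {p q : Q} (h : Meets step p q) : Meets step q p := by
  obtain ⟨m, n, r, h1, h2⟩ := h
  exact ⟨n, m, r, h2, h1⟩

theorem Meets.step {step : Q → Option Q} {p q : Q} (h : step p = some q) : Meets step p q :=
  ⟨1, 0, q, by rw [fwd_succ, h]; rfl, rfl⟩

theorem Meets.trans {step : Q → Option Q} {p q s : Q} (h : Meets step p q)
    (h' : Meets step q s) : Meets step p s := by
  obtain ⟨m, n, r, h1, h2⟩ := h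
  obtain ⟨n', k, r', h3, h4⟩ := h'
  rcases le_total n n' with hn | hn
  · obtain ⟨j, rfl⟩ := Nat.exists_eq_add_of_le hn
    refine ⟨m + j, k, r', ?_, h4⟩
    rw [fwd_add, h2] at h3
    rw [fwd_add, h1]
    exact h3
  · obtain ⟨j, rfl⟩ := Nat.exists_eq_add_of_le hn
    refine ⟨m, k + j, r, h1, ?_⟩
    rw [fwd_add, h3] at h2
    rw [fwd_add, h4]
    exact h2

theorem meets_equivalence (step : Q → Option Q) : Equivalence (Meets step) :=
  ⟨Meets.refl step, Meets.symm, Meets.trans⟩

/-- a state without successor: its run is only itself -/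
theorem fwd_of_stuck {step : Q → Option Q} {q r : Q} {n : ℕ} (hq : step q = none)
    (h : fwd step n q = some r) : r = q := by
  cases n with
  | zero => simpa using h.symm
  | succ n => rw [fwd_succ, hq] at h; simp at h

theorem meets_stuck {step : Q → Option Q} {p q : Q} (hq : step q = none) :
    Meets step p q ↔ ∃ m, fwd step m p = some q := by
  constructor
  · rintro ⟨m, n, r, h1, h2⟩
    rw [fwd_of_stuck hq h2] at h1
    exact ⟨m, h1⟩
  · rintro ⟨m, h⟩
    exact ⟨m, 0, q, h, rfl⟩

/-- two states without successor -/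
theorem meets_stuck_stuck {step : Q → Option Q} {p q : Q} (hp : step p = none)
    (hq : step q = none) : Meets step p q ↔ p = q := by
  rw [meets_stuck hq]
  constructor
  · rintro ⟨m, h⟩
    exact (fwd_of_stuck hp h).symm
  · rintro rfl
    exact ⟨0, rfl⟩

/-- two relations generate the equivalence with the classes of the first one and a deterministic
partial map on these classes -/
theorem eqv_iff_meets {R1 R2 : X → X → Prop} {abs : X → Q} {step : Q → Option Q}
    (h1 : ∀ x y, EqvGen R1 x y ↔ abs x = abs y)
    (h2 : ∀ x y, R2 x y → step (abs x) = some (abs y))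
    (h3 : ∀ x q', step (abs x) = some q' → ∃ x' y', abs x' = abs x ∧ abs y' = q' ∧ R2 x' y')
    (x y : X) : EqvGen (fun u v => R1 u v ∨ R2 u v) x y ↔ Meets step (abs x) (abs y) := by
  constructor
  · intro h
    induction h with
    | rel x y h =>
      rcases h with h | h
      · rw [(h1 x y).1 (EqvGen.rel _ _ h)]
        exact Meets.refl _ _
      · exact Meets.step (h2 x y h)
    | refl x => exact Meets.refl _ _
    | symm x y _ ih => exact ih.symm
    | trans x y z _ _ ih1 ih2 => exact ih1.trans ih2
  · have mono : ∀ {u v : X}, EqvGen R1 u v → EqvGen (fun u v => R1 u v ∨ R2 u v) u v := by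
      intro u v h
      exact h.mono fun _ _ h' => Or.inl h'
    have key : ∀ (m : ℕ) (x : X) (r : Q), fwd step m (abs x) = some r →
        ∃ z, abs z = r ∧ EqvGen (fun u v => R1 u v ∨ R2 u v) x z := by
      intro m
      induction m with
      | zero =>
        intro x r h
        exact ⟨x, by simpa using h, EqvGen.refl _⟩
      | succ m ih =>
        intro x r h
        rw [fwd_succ] at h
        cases hs : step (abs x) with
        | none => rw [hs] at h; simp at h
        | some q' =>
          rw [hs] at h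
          obtain ⟨x', y', e1, e2, e3⟩ := h3 x q' hs
          obtain ⟨z, hz1, hz2⟩ := ih y' r (by rw [e2]; exact h)
          refine ⟨z, hz1, ?_⟩
          refine ((mono ((h1 x x').2 e1.symm)).trans _ _ _
            (EqvGen.rel _ _ (Or.inr e3))).trans _ _ _ hz2
    rintro ⟨m, n, r, hm, hn⟩
    obtain ⟨z, hz1, hz2⟩ := key m x r hm
    obtain ⟨z', hz1', hz2'⟩ := key n y r hn
    refine (hz2.trans _ _ _ (mono ((h1 z z').2 (hz1.trans hz1'.symm)))).trans _ _ _ ?_
    exact EqvGen.symm _ _ hz2'

/-- the killed states -/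
theorem killed_iff_fwd {R1 R2 : X → X → Prop} {abs : X → Q} {step : Q → Option Q}
    (h1 : ∀ x y, EqvGen R1 x y ↔ abs x = abs y)
    (h2 : ∀ x y, R2 x y → step (abs x) = some (abs y))
    (h3 : ∀ x q', step (abs x) = some q' → ∃ x' y', abs x' = abs x ∧ abs y' = q' ∧ R2 x' y')
    {K : X → Prop} {KQ : Q → Prop} (hK : ∀ x, (∃ y, abs y = abs x ∧ K y) ↔ KQ (abs x))
    (hK' : ∀ x, KQ (abs x) → step (abs x) = none) (x : X) :
    (∃ y, EqvGen (fun u v => R1 u v ∨ R2 u v) x y ∧ K y) ↔
      ∃ n z, fwd step n (abs x) = some (abs z) ∧ KQ (abs z) := by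
  constructor
  · rintro ⟨y, hy, hk⟩
    have hk' : KQ (abs y) := (hK y).1 ⟨y, rfl, hk⟩
    obtain ⟨m, hm⟩ := (meets_stuck (hK' y hk')).1 ((eqv_iff_meets h1 h2 h3 x y).1 hy)
    exact ⟨m, y, hm, hk'⟩
  · rintro ⟨n, z, hn, hk⟩
    obtain ⟨y, e1, e2⟩ := (hK z).2 hk
    refine ⟨y, (eqv_iff_meets h1 h2 h3 x y).2 ⟨n, 0, abs z, hn, by rw [e1]; rfl⟩, e2⟩

end PVZ
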