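import Mathlib

/-!
# PV (MP_c0bc55_al), names level: classification of zippers with names and marks

`NS B`: a free binary operation `nd` on a group `B` with two constants `a`, `b` which are not
values of `nd`.  A zipper is `zp L A R B = nd (nd L A) (nd R B)`, `L`, `R` lists of names, `A`, `B`
lists of marks `a`.
-/

namespace PVZ

open Relation

/-- a node system -/
structure NS (B : Type) [Group B] where
  a : B
  b : B
  nd : B → B → B
  rk : B → ℕ
  inj : ∀ {y z y' z' : B}, nd y z = nd y' z' → y = y' ∧ z = z'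
  rk_l : ∀ y z, rk y < rk (nd y z)
  rk_r : ∀ y z, rk z < rk (nd y z)
  ne_a : ∀ y z, nd y z ≠ a
  ne_b : ∀ y z, nd y z ≠ b
  a_ne_b : a ≠ b

variable {B : Type} [Group B] (S : NS B)

namespace NS

/-- zipper -/
def zp (L A R C : B) : B := S.nd (S.nd L A) (S.nd R C)

theorem zp_inj {L A R C L' A' R' C' : B} (h : S.zp L A R C = S.zp L' A' R' C') :
    L = L' ∧ A = A' ∧ R = R' ∧ C = C' := by
  obtain ⟨h1, h2⟩ := S.inj h
  obtain ⟨h3, h4⟩ := S.inj h1
  obtain ⟨h5, h6⟩ := S.inj h2
  exact ⟨h3, h4, h5, h6⟩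

/-- list of names on a bottom -/
def ls (l : List B) (β : B) : B := l.foldr S.nd β

/-- list of `n` marks on a bottom -/
def mks (n : ℕ) (β : B) : B := (S.nd S.a)^[n] β

@[simp] theorem ls_nil (β : B) : S.ls [] β = β := rfl
@[simp] theorem ls_cons (y : B) (l : List B) (β : B) : S.ls (y :: l) β = S.nd y (S.ls l β) := rfl
@[simp] theorem mks_zero (β : B) : S.mks 0 β = β := rfl
@[simp] theorem mks_succ (n : ℕ) (β : B) : S.mks (n + 1) β = S.nd S.a (S.mks n β) :=
  Function.iterate_succ_apply' _ _ _

/-- name rules -/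
inductive NR : B → B → Prop
  | shift (y L A R C : B) : NR (S.zp (S.nd y L) (S.nd S.a A) R C) (S.zp L A (S.nd y R) (S.nd S.a C))
  | swap (y y' L A R C : B) :
      NR (S.zp (S.nd y L) (S.nd S.a A) (S.nd y' R) (S.nd S.a C))
        (S.zp (S.nd y' L) (S.nd S.a A) (S.nd y R) (S.nd S.a C))
  | comm (y u v L A R C : B) :
      NR (S.zp (S.nd y L) (S.nd S.a A) R C) (S.zp (S.nd (y * (u * v * u⁻¹ * v⁻¹)) L) (S.nd S.a A) R C)

/-- kill pattern of the names -/
inductive NK : B → Prop
  | kill (y L A R C : B) : NK (S.zp (S.nd y L) (S.nd S.a A) (S.nd y R) (S.nd S.a C))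

/-- no name together with a mark on the top -/
def Stop (L A : B) : Prop := ¬ ∃ y L' A', L = S.nd y L' ∧ A = S.nd S.a A'

/-- window data -/
structure Wd (B : Type) [Group B] where
  L : B
  A : B
  R : B
  C : B
  S : Multiset (Abelianization B)

/-- image of a list of names -/
def im (l : List B) : Multiset (Abelianization B) := ((l.map Abelianization.of : List _) : Multiset _)

/-- `N` has the window data `d` -/
def Win (N : B) (d : Wd B) : Prop :=
  ∃ l r : List B, N = S.zp (S.ls l d.L) (S.mks l.length d.A) (S.ls r d.R) (S.mks r.length d.C) ∧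
    S.Stop d.L d.A ∧ S.Stop d.R d.C ∧ d.S = im l + im r

theorem dec_exists (L A : B) : ∃ (l : List B) (L0 A0 : B), L = S.ls l L0 ∧ A = S.mks l.length A0 ∧
    S.Stop L0 A0 := by
  induction h : S.rk L using Nat.strong_induction_on generalizing L A with
  | _ n ih =>
    by_cases hs : S.Stop L A
    · exact ⟨[], L, A, rfl, rfl, hs⟩
    · unfold Stop at hs
      push Not at hs
      obtain ⟨y, L', A', rfl, rfl⟩ := hs
      obtain ⟨l, L0, A0, h1, h2, h3⟩ := ih (S.rk L') (by rw [← h]; exact S.rk_r y L') L' A' rfl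
      exact ⟨y :: l, L0, A0, by rw [h1]; rfl, by rw [h2]; simp, h3⟩

theorem dec_unique {l l' : List B} {L0 A0 L0' A0' : B} (h1 : S.ls l L0 = S.ls l' L0')
    (h2 : S.mks l.length A0 = S.mks l'.length A0') (hs : S.Stop L0 A0) (hs' : S.Stop L0' A0') :
    l = l' ∧ L0 = L0' ∧ A0 = A0' := by
  induction l generalizing l' with
  | nil =>
    cases l' with
    | nil => exact ⟨rfl, h1, h2⟩
    | cons y' l' =>
      exact absurd ⟨y', _, _, h1, by simpa using h2⟩ hs
  | cons y l ih =>
    cases l' with
    | nil => exact absurd ⟨y, _, _, h1.symm, by simpa using h2.symm⟩ hs'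
    | cons y' l' =>
      simp only [ls_cons, List.length_cons, mks_succ] at h1 h2
      obtain ⟨e1, e2⟩ := S.inj h1
      obtain ⟨-, e3⟩ := S.inj h2
      obtain ⟨e4, e5, e6⟩ := ih e2 e3
      exact ⟨by rw [e1, e4], e5, e6⟩

theorem win_exists (L A R C : B) : ∃ d, S.Win (S.zp L A R C) d := by
  obtain ⟨l, L0, A0, h1, h2, h3⟩ := S.dec_exists L A
  obtain ⟨r, R0, C0, h4, h5, h6⟩ := S.dec_exists R C
  exact ⟨⟨L0, A0, R0, C0, im l + im r⟩, l, r, by rw [h1, h2, h4, h5], h3, h6, rfl⟩

theorem win_unique {N : B} {d d' : Wd B} (h : S.Win N d) (h' : S.Win N d') : d = d' := by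
  obtain ⟨l, r, h1, h2, h3, h4⟩ := h
  obtain ⟨l', r', h1', h2', h3', h4'⟩ := h'
  obtain ⟨e1, e2, e3, e4⟩ := S.zp_inj (h1.symm.trans h1')
  obtain ⟨f1, f2, f3⟩ := S.dec_unique e1 e2 h2 h2'
  obtain ⟨g1, g2, g3⟩ := S.dec_unique e3 e4 h3 h3'
  subst f1 g1
  cases d; cases d'
  simp only at *
  subst f2 f3 g2 g3 h4 h4'
  rfl

theorem im_cons (y : B) (l : List B) : im (y :: l) = Abelianization.of y ::ₘ im l := rfl

theorem of_comm (y u v : B) :
    Abelianization.of (y * (u * v * u⁻¹ * v⁻¹)) = Abelianization.of y := by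
  simp only [map_mul, map_inv]
  rw [mul_comm (Abelianization.of u) (Abelianization.of v)]
  group

/-- the window data of a zipper with a name and a mark on the top of the left side -/
theorem win_cons_left {y L A R C : B} {d : Wd B} :
    S.Win (S.zp (S.nd y L) (S.nd S.a A) R C) d ↔
      ∃ l r : List B, L = S.ls l d.L ∧ A = S.mks l.length d.A ∧ R = S.ls r d.R ∧
        C = S.mks r.length d.C ∧ S.Stop d.L d.A ∧ S.Stop d.R d.C ∧
        d.S = Abelianization.of y ::ₘ (im l + im r) := by
  constructor
  · rintro ⟨l, r, h1, h2, h3, h4⟩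
    obtain ⟨e1, e2, e3, e4⟩ := S.zp_inj h1
    cases l with
    | nil => exact absurd ⟨y, _, _, e1.symm, by simpa using e2.symm⟩ h2
    | cons y' l =>
      simp only [ls_cons, List.length_cons, mks_succ] at e1 e2
      obtain ⟨f1, f2⟩ := S.inj e1
      obtain ⟨-, f3⟩ := S.inj e2
      subst f1
      exact ⟨l, r, f2, f3, e3, e4, h2, h3, by rw [h4, im_cons, Multiset.cons_add]⟩
  · rintro ⟨l, r, h1, h2, h3, h4, h5, h6, h7⟩
    exact ⟨y :: l, r, by rw [h1, h2, h3, h4]; simp, h5, h6, by
      rw [h7, im_cons, Multiset.cons_add]⟩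

theorem win_cons_right {y L A R C : B} {d : Wd B} :
    S.Win (S.zp L A (S.nd y R) (S.nd S.a C)) d ↔
      ∃ l r : List B, L = S.ls l d.L ∧ A = S.mks l.length d.A ∧ R = S.ls r d.R ∧
        C = S.mks r.length d.C ∧ S.Stop d.L d.A ∧ S.Stop d.R d.C ∧
        d.S = Abelianization.of y ::ₘ (im l + im r) := by
  constructor
  · rintro ⟨l, r, h1, h2, h3, h4⟩
    obtain ⟨e1, e2, e3, e4⟩ := S.zp_inj h1
    cases r with
    | nil => exact absurd ⟨y, _, _, e3.symm, by simpa using e4.symm⟩ h3
    | cons y' r =>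
      simp only [ls_cons, List.length_cons, mks_succ] at e3 e4
      obtain ⟨f1, f2⟩ := S.inj e3
      obtain ⟨-, f3⟩ := S.inj e4
      subst f1
      exact ⟨l, r, e1, e2, f2, f3, h2, h3, by rw [h4, im_cons, Multiset.add_cons]⟩
  · rintro ⟨l, r, h1, h2, h3, h4, h5, h6, h7⟩
    exact ⟨l, y :: r, by rw [h1, h2, h3, h4]; simp, h5, h6, by
      rw [h7, im_cons, Multiset.add_cons]⟩

/-- the window data are invariant under the name rules -/
theorem win_of_NR {N N' : B} (h : S.NR N N') (d : Wd B) : S.Win N d ↔ S.Win N' d := by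
  cases h with
  | shift y L A R C => rw [win_cons_left, win_cons_right]
  | swap y y' L A R C =>
    rw [win_cons_left, win_cons_left]
    constructor
    · rintro ⟨l, r, h1, h2, h3, h4, h5, h6, h7⟩
      cases r with
      | nil => exact absurd ⟨y', _, _, h3.symm, by simpa using h4.symm⟩ h6
      | cons z r =>
        simp only [ls_cons, List.length_cons, mks_succ] at h3 h4
        obtain ⟨f1, f2⟩ := S.inj h3
        obtain ⟨-, f3⟩ := S.inj h4
        subst f1
        refine ⟨l, y :: r, h1, h2, by rw [f2]; rfl, by rw [f3]; simp, h5, h6, ?_⟩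
        rw [h7, im_cons, im_cons, Multiset.add_cons, Multiset.add_cons, Multiset.cons_swap]
    · rintro ⟨l, r, h1, h2, h3, h4, h5, h6, h7⟩
      cases r with
      | nil => exact absurd ⟨y, _, _, h3.symm, by simpa using h4.symm⟩ h6
      | cons z r =>
        simp only [ls_cons, List.length_cons, mks_succ] at h3 h4
        obtain ⟨f1, f2⟩ := S.inj h3
        obtain ⟨-, f3⟩ := S.inj h4
        subst f1
        refine ⟨l, y' :: r, h1, h2, by rw [f2]; rfl, by rw [f3]; simp, h5, h6, ?_⟩
        rw [h7, im_cons, im_cons, Multiset.add_cons, Multiset.add_cons, Multiset.cons_swap]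
  | comm y u v L A R C => rw [win_cons_left, win_cons_left, of_comm]

/-- only zippers are touched by the rules -/
theorem win_of_eqv {N N' : B} (h : EqvGen S.NR N N') (d : Wd B) : S.Win N d ↔ S.Win N' d := by
  induction h with
  | rel x y h => exact S.win_of_NR h d
  | refl x => rfl
  | symm x y _ ih => exact ih.symm
  | trans x y z _ _ ih1 ih2 => exact ih1.trans ih2

theorem eq_of_eqv_of_no_win {N N' : B} (h : EqvGen S.NR N N') (hN : ¬ ∃ d, S.Win N d) : N = N' := by
  have key : ∀ {x y : B}, S.NR x y → (∃ d, S.Win x d) ∧ ∃ d, S.Win y d := by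
    intro x y h
    cases h with
    | shift y L A R C => exact ⟨S.win_exists _ _ _ _, S.win_exists _ _ _ _⟩
    | swap y y' L A R C => exact ⟨S.win_exists _ _ _ _, S.win_exists _ _ _ _⟩
    | comm y u v L A R C => exact ⟨S.win_exists _ _ _ _, S.win_exists _ _ _ _⟩
  have main : ∀ {x y : B}, EqvGen S.NR x y → x = y ∨ ((∃ d, S.Win x d) ∧ ∃ d, S.Win y d) := by
    intro x y h
    induction h with
    | rel x y h => exact Or.inr (key h)
    | refl x => exact Or.inl rfl
    | symm x y _ ih =>
      rcases ih with h | h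
      · exact Or.inl h.symm
      · exact Or.inr h.symm
    | trans x y z _ _ ih1 ih2 =>
      rcases ih1 with rfl | h1
      · exact ih2
      · rcases ih2 with rfl | h2
        · exact Or.inr h1
        · exact Or.inr ⟨h1.1, h2.2⟩
  rcases main h with h | h
  · exact h
  · exact absurd h.1 hN

/-- shift to the left -/
theorem eqv_shift (y : B) (L A R C : B) :
    EqvGen S.NR (S.zp L A (S.nd y R) (S.nd S.a C)) (S.zp (S.nd y L) (S.nd S.a A) R C) :=
  EqvGen.symm _ _ (EqvGen.rel _ _ (NR.shift y L A R C))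

/-- permutations of the names on the right side -/
theorem eqv_perm {t t' : List B} (h : t.Perm t') (L A R C : B) :
    EqvGen S.NR (S.zp L A (S.ls t R) (S.mks t.length C)) (S.zp L A (S.ls t' R) (S.mks t'.length C)) := by
  induction h generalizing L A with
  | nil => exact EqvGen.refl _
  | cons y _ ih =>
    simp only [ls_cons, List.length_cons, mks_succ]
    exact ((S.eqv_shift y L A _ _).trans _ _ _ (ih _ _)).trans _ _ _
      (EqvGen.rel _ _ (NR.shift y L A _ _))
  | swap x y t =>
    simp only [ls_cons, List.length_cons, mks_succ]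
    refine ((S.eqv_shift y L A _ _).trans _ _ _ ?_).trans _ _ _
      (EqvGen.rel _ _ (NR.shift x L A _ _))
    exact EqvGen.rel _ _ (NR.swap y x L A _ _)
  | trans _ _ ih1 ih2 => exact (ih1 L A).trans _ _ _ (ih2 L A)

/-- names may be changed modulo commutators -/
theorem eqv_comm_left {c : B} (hc : c ∈ commutator B) (y : B) (L A R C : B) :
    EqvGen S.NR (S.zp (S.nd y L) (S.nd S.a A) R C) (S.zp (S.nd (y * c) L) (S.nd S.a A) R C) := by
  rw [commutator_eq_closure] at hc
  induction hc using Subgroup.closure_induction generalizing y with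
  | mem c hc =>
    obtain ⟨u, v, rfl⟩ := hc
    rw [commutatorElement_def]
    exact EqvGen.rel _ _ (NR.comm y u v L A R C)
  | one => rw [mul_one]; exact EqvGen.refl _
  | mul c c' _ _ ih ih' =>
    rw [← mul_assoc]
    exact (ih y).trans _ _ _ (ih' (y * c))
  | inv c _ ih =>
    have := ih (y * c⁻¹)
    rw [inv_mul_cancel_right] at this
    exact EqvGen.symm _ _ this

theorem eqv_names {t t' : List B}
    (h : List.Forall₂ (fun y y' : B => Abelianization.of y = Abelianization.of y') t t')
    (L A R C : B) :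
    EqvGen S.NR (S.zp L A (S.ls t R) (S.mks t.length C)) (S.zp L A (S.ls t' R) (S.mks t'.length C)) := by
  induction h generalizing L A with
  | nil => exact EqvGen.refl _
  | @cons y y' t t' hy _ ih =>
    simp only [ls_cons, List.length_cons, mks_succ]
    have hc : y⁻¹ * y' ∈ commutator B := by
      rw [← Abelianization.ker_of, MonoidHom.mem_ker, map_mul, map_inv, hy, inv_mul_cancel]
    have h1 := S.eqv_comm_left hc y L A (S.ls t R) (S.mks t.length C)
    rw [mul_inv_cancel_left] at h1
    exact (((S.eqv_shift y L A _ _).trans _ _ _ h1).trans _ _ _ (ih _ _)).trans _ _ _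
      (EqvGen.rel _ _ (NR.shift y' L A _ _))

/-- all the names to the right side -/
theorem eqv_right (l : List B) (L A R C : B) (r : List B) :
    EqvGen S.NR (S.zp (S.ls l L) (S.mks l.length A) (S.ls r R) (S.mks r.length C))
      (S.zp L A (S.ls (l.reverse ++ r) R) (S.mks (l.reverse ++ r).length C)) := by
  induction l generalizing r with
  | nil => exact EqvGen.refl _
  | cons y l ih =>
    simp only [ls_cons, List.length_cons, mks_succ]
    refine (EqvGen.rel _ _ (NR.shift y _ _ _ _)).trans _ _ _ ?_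
    have := ih (y :: r)
    simp only [ls_cons, List.length_cons, mks_succ] at this
    simpa using this

theorem im_append (l r : List B) : im (l ++ r) = im l + im r := by
  unfold im
  rw [List.map_append, ← Multiset.coe_add]

theorem im_reverse (l : List B) : im l.reverse = im l := by
  unfold im
  rw [List.map_reverse, Multiset.coe_reverse]

/-- a list with the same image mod commutators is a permutation up to commutators -/
theorem eqv_im {t t' : List B} (h : im t = im t') (L A R C : B) :
    EqvGen S.NR (S.zp L A (S.ls t R) (S.mks t.length C)) (S.zp L A (S.ls t' R) (S.mks t'.length C)) := by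
  have hp : (t.map Abelianization.of).Perm (t'.map Abelianization.of) := Multiset.coe_eq_coe.1 h
  obtain ⟨s, hs1, hs2⟩ : ∃ s : List B, t.Perm s ∧
      List.Forall₂ (fun y y' : B => Abelianization.of y = Abelianization.of y') s t' := by
    have h2 : Relation.Comp (List.Forall₂ (fun (y : B) z => Abelianization.of y = z)) List.Perm
        t (t'.map Abelianization.of) :=
      ⟨t.map Abelianization.of, by
        rw [List.forall₂_map_right_iff]
        exact List.forall₂_same.2 (fun _ _ => rfl), hp⟩
    rw [List.forall₂_comp_perm_eq_perm_comp_forall₂] at h2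
    obtain ⟨s, h3, h4⟩ := h2
    exact ⟨s, h3, by rwa [List.forall₂_map_right_iff] at h4⟩
  exact (S.eqv_perm hs1 L A R C).trans _ _ _ (S.eqv_names hs2 L A R C)

/-- completeness of the window data -/
theorem eqv_of_win {N N' : B} {d : Wd B} (h : S.Win N d) (h' : S.Win N' d) : EqvGen S.NR N N' := by
  obtain ⟨l, r, h1, h2, h3, h4⟩ := h
  obtain ⟨l', r', h1', h2', h3', h4'⟩ := h'
  rw [h1, h1']
  refine ((S.eqv_right l _ _ _ _ r).trans _ _ _ ?_).trans _ _ _
    (EqvGen.symm _ _ (S.eqv_right l' _ _ _ _ r'))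
  apply S.eqv_im
  rw [im_append, im_append, im_reverse, im_reverse, ← h4, ← h4']

/-- classification of the zippers -/
theorem eqv_iff (N N' : B) : EqvGen S.NR N N' ↔ N = N' ∨ ∃ d, S.Win N d ∧ S.Win N' d := by
  constructor
  · intro h
    by_cases hN : ∃ d, S.Win N d
    · obtain ⟨d, hd⟩ := hN
      exact Or.inr ⟨d, hd, (S.win_of_eqv h d).1 hd⟩
    · exact Or.inl (S.eq_of_eqv_of_no_win h hN)
  · rintro (rfl | ⟨d, h, h'⟩)
    · exact EqvGen.refl _
    · exact S.eqv_of_win h h'

/-- killed zippers: a name is repeated mod commutators -/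
theorem killed_iff (N : B) : (∃ N', EqvGen S.NR N N' ∧ S.NK N') ↔ ∃ d, S.Win N d ∧ ¬ d.S.Nodup := by
  constructor
  · rintro ⟨N', h, hk⟩
    cases hk with
    | kill y L A R C =>
      obtain ⟨d, hd⟩ := S.win_exists (S.nd y L) (S.nd S.a A) (S.nd y R) (S.nd S.a C)
      refine ⟨d, (S.win_of_eqv h d).2 hd, ?_⟩
      obtain ⟨l, r, h1, h2, h3, h4, h5, h6, h7⟩ := S.win_cons_left.1 hd
      cases r with
      | nil => exact absurd ⟨y, _, _, h3.symm, by simpa using h4.symm⟩ h6
      | cons z r =>
        simp only [ls_cons] at h3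
        obtain ⟨f1, -⟩ := S.inj h3
        subst f1
        rw [h7, im_cons, Multiset.add_cons, Multiset.nodup_cons]
        intro hh
        exact hh.1 (Multiset.mem_cons_self _ _)
  · rintro ⟨d, ⟨l, r, h1, h2, h3, h4⟩, hd⟩
    rw [h4, ← im_reverse l, ← im_append] at hd
    have hd' : ¬ ((l.reverse ++ r).map (Abelianization.of : B →* _)).Nodup := hd
    obtain ⟨y, y', s, hs, hy⟩ : ∃ y y' s, (l.reverse ++ r).Perm (y :: y' :: s) ∧
        Abelianization.of y = Abelianization.of y' := by
      generalize l.reverse ++ r = t at hd'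
      clear h1 h2 h3 h4 hd
      induction t with
      | nil => simp at hd'
      | cons z t ih =>
        rw [List.map_cons, List.nodup_cons, not_and_or, not_not] at hd'
        rcases hd' with h | h
        · obtain ⟨z', hz', hzz⟩ := List.mem_map.1 h
          obtain ⟨s1, s2, rfl⟩ := List.append_of_mem hz'
          obtain ⟨s, hs⟩ : ∃ s, (s1 ++ z' :: s2).Perm (z' :: s) := ⟨s1 ++ s2, List.perm_middle⟩
          exact ⟨z, z', s, hs.cons z, hzz.symm⟩
        · obtain ⟨y, y', s, hs, hy⟩ := ih h
          exact ⟨y, y', z :: s, (hs.cons z).trans (by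
            refine (List.Perm.swap y z _).trans (List.Perm.cons y (List.Perm.swap y' z _))), hy⟩
    refine ⟨S.zp (S.nd y d.L) (S.nd S.a d.A) (S.nd y (S.ls s d.R)) (S.nd S.a (S.mks s.length d.C)),
      ?_, NK.kill y _ _ _ _⟩
    rw [h1]
    refine ((S.eqv_right l _ _ _ _ r).trans _ _ _ (S.eqv_perm hs _ _ _ _)).trans _ _ _ ?_
    have hf : List.Forall₂ (fun y y' : B => Abelianization.of y = Abelianization.of y')
        (y :: y' :: s) (y :: y :: s) :=
      List.Forall₂.cons rfl (List.Forall₂.cons hy.symm (List.forall₂_refl s))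
    refine (S.eqv_names hf _ _ _ _).trans _ _ _ ?_
    simp only [ls_cons, List.length_cons, mks_succ]
    exact S.eqv_shift y _ _ _ _

end NS

end PVZ
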